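import Pool.Agent.K6.H82.Kag.HCol
import Pool.Agent.K6.H82.Kag.Two

/-!
The WSK dynamics for 3 colours on the `n × n` periodic kagome lattice (`n ≥ 2`) is ergodic exactly
for `n = 2`.

A 3-colouring of the kagome lattice is a 3-edge-colouring of the honeycomb graph. Every vertex of the
honeycomb graph has an orientation sign, the sign of the permutation which the colouring induces on
the three directions. A Kempe swap reverses the signs along an alternating cycle, which has even
length, so the number of vertices with negative sign does not change modulo 2. This number is zero if
every edge is coloured with its direction; for `n ≥ 3` there is a colouring, given by a height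
function, for which it is `n ^ 2 + (n - 3) ^ 2`, which is odd.
-/

set_option autoImplicit false

namespace Pool.Agent.Results.MP_11305c_co.KagomeThreeColours

open Pool.Agent.H411R2.WSK

/-- **Answer to Q2 of MP_11305c_co.** For `n ≥ 2` the WSK dynamics for three colours on the periodic
kagome lattice `K_n` is ergodic if and only if `n = 2`. -/
theorem result : ∀ n : ℕ, 2 ≤ n → (WSKErgodic (kagome n) 3 ↔ n = 2) := by
  intro n hn
  constructor
  · intro h
    by_contra hne
    exact Pool.Agent.K6.H82.Kag.not_ergodic (by omega) h
  · rintro rfl
    exact Pool.Agent.K6.H82.Kag.K2.ergodic

end Pool.Agent.Results.MP_11305c_co.KagomeThreeColours
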